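import Pool.Agent.U280.SM.V
import Pool.Agent.U281.CP.Top

/-!
# Lieb-Thirring inequalities with the semiclassical constant for potentials `V(|x|, y)`

Write `ℝ^d = ℝ^k × ℝ^m ∋ (x, y)` with `k ≥ 6`, `m ≥ 0`. For all `s ≥ 1` and all real potentials
`V(|x|, y) ∈ L^(s + d/2)` the min-max values `E_1 ≤ E_2 ≤ …` of `-Δ + V` (below zero, the negative
eigenvalues) satisfy

  `∑ (E_n)_-^s ≤ L^cl_{s,d} ∫ V_-^(s + d/2)`.

In particular this holds for all radial potentials in dimension `d ≥ 6`. (For `s ≥ 3/2` this is the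
theorem of Laptev and Weidl, for all potentials.)

Proof. For `s = 1` and orthonormal families of trial functions this is the inequality `top_pot` of
helper281 (`Pool/Agent/U281/CP`, hand-in `CylindricalPotentials` of the problem MP_cfe56d_mp) for the
potential `V_-(|x|, y)`. Orthonormal families of almost minimizing functions give the min-max values,
and since `(V + τ)_-` is again a function of `|x|` and `y`, the argument of Aizenman and Lieb gives
`s > 1`.
-/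

open MeasureTheory Set Real

set_option autoImplicit false

namespace Pool.Agent.Results.MP_4c716f_mp.CylindricalPotentials

/-- The partial derivative `∂_k φ` of a function on `ℝ^d`. -/
noncomputable def pder {d : ℕ} (k : Fin d) (φ : (Fin d → ℝ) → ℝ) (x : Fin d → ℝ) : ℝ :=
  fderiv ℝ φ x (Pi.single k 1)

/-- `u` belongs to the Sobolev space `H¹(ℝ^d; ℂ)` and has the weak partial derivatives `g k`:
`u` and all `g k` are in `L²(ℝ^d)`, and `∫ u ∂_k φ = - ∫ g_k φ` for every real test function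
`φ ∈ C_c^∞(ℝ^d)`. -/
structure IsSobolev {d : ℕ} (u : (Fin d → ℝ) → ℂ) (g : Fin d → (Fin d → ℝ) → ℂ) : Prop where
  memLp : MemLp u 2 volume
  memLp_deriv : ∀ k, MemLp (g k) 2 volume
  weak : ∀ k (φ : (Fin d → ℝ) → ℝ), ContDiff ℝ (⊤ : ℕ∞) φ → HasCompactSupport φ →
    ∫ x, u x * (pder k φ x : ℂ) = - ∫ x, g k x * (φ x : ℂ)

/-- `u 0, …, u n` are functions in `H¹(ℝ^d; ℂ)` with weak gradients `g 0, …, g n`, orthonormal
in `L²(ℝ^d; ℂ)`. -/
def Trial {d n : ℕ} (u : Fin (n + 1) → (Fin d → ℝ) → ℂ)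
    (g : Fin (n + 1) → Fin d → (Fin d → ℝ) → ℂ) : Prop :=
  (∀ i, IsSobolev (u i) (g i)) ∧
    ∀ i j, ∫ x, (starRingEnd ℂ) (u i x) * u j x = if i = j then 1 else 0

/-- The `(n + 1)`-th min-max value of `-Δ + V` on `L²(ℝ^d; ℂ)`: the infimum of the real numbers
`lam` such that on some `(n + 1)`-dimensional space of functions in `H¹`, given by an orthonormal
basis `u 0, …, u n`, the form is at most `lam` times the square of the norm, that is,
`∫ |∇v|² + ∫ V |v|² ≤ lam ∑ |c_i|²` for all `v = ∑ c_i u_i`. -/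
noncomputable def minMax {d : ℕ} (V : (Fin d → ℝ) → ℝ) (n : ℕ) : ℝ :=
  sInf {lam : ℝ | ∃ (u : Fin (n + 1) → (Fin d → ℝ) → ℂ)
    (g : Fin (n + 1) → Fin d → (Fin d → ℝ) → ℂ), Trial u g ∧
    ∀ c : Fin (n + 1) → ℂ, (∫ x, ∑ k, ‖∑ i, c i * g i k x‖ ^ 2) +
      ∫ x, V x * ‖∑ i, c i * u i x‖ ^ 2 ≤ lam * ∑ i, ‖c i‖ ^ 2}

/-- The semiclassical constant `L^cl_{s,d}`. -/
noncomputable def Lcl (s : ℝ) (d : ℕ) : ℝ :=
  Gamma (s + 1) / ((4 * π) ^ ((d:ℝ) / 2) * Gamma (s + 1 + d / 2))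

/-- The potential `v (|x|, y)` on `ℝ^(k+m)`, where `x` are the first `k` and `y` the last `m`
coordinates and `|x|` is the Euclidean norm. -/
noncomputable def cyl (k m : ℕ) (v : ℝ × (Fin m → ℝ) → ℝ) (z : Fin (k + m) → ℝ) : ℝ :=
  v (‖(WithLp.toLp 2 fun i => z (Fin.castAdd m i) : EuclideanSpace ℝ (Fin k))‖,
    fun j => z (Fin.natAdd k j))

theorem Ly_eq {d : ℕ} (hd : 1 ≤ d) :
    Pool.Agent.U281.CP.Ly (Pool.Agent.R117.RL.Kcl d) d = Pool.H632.LTD.Lcl 1 d := by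
  rw [← Pool.Agent.U280.SM.lcl_one hd]
  have hd' : (0 : ℝ) < d := by exact_mod_cast hd
  have hK : Pool.Agent.R117.RL.Kcl d = d / (d + 2) * ((2 * Real.pi) ^ 2 /
    (volume (Metric.ball (0 : EuclideanSpace ℝ (Fin d)) 1)).toReal ^ (2 / (d : ℝ))) := rfl
  rw [hK]
  obtain ⟨w, hw⟩ : ∃ w : ℝ, w =
    (volume (Metric.ball (0 : EuclideanSpace ℝ (Fin d)) 1)).toReal := ⟨_, rfl⟩
  have hw0 : 0 < w := by
    rw [hw]
    exact ENNReal.toReal_pos (Metric.measure_ball_pos _ _ one_pos).ne' measure_ball_lt_top.ne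
  have hπ := Real.pi_pos
  unfold Pool.Agent.U281.CP.Ly
  rw [← hw]
  congr 1
  have h1 : (d : ℝ) / (((d : ℝ) + 2) * (d / (d + 2) * ((2 * Real.pi) ^ 2 / w ^ (2 / (d : ℝ))))) =
      w ^ (2 / (d : ℝ)) / (2 * Real.pi) ^ 2 := by
    have : 0 < w ^ (2 / (d : ℝ)) := by positivity
    field_simp
  rw [h1, Real.div_rpow (by positivity) (by positivity), ← Real.rpow_mul hw0.le]
  have h2 : 2 / (d : ℝ) * ((d : ℝ) / 2) = 1 := by field_simp
  rw [h2, Real.rpow_one]
  congr 1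
  rw [← Real.rpow_natCast (2 * Real.pi) 2, ← Real.rpow_mul (by positivity),
    ← Real.rpow_natCast (2 * Real.pi) d]
  congr 1
  push_cast
  ring

/-- The sum bound for potentials `w (|x|, y)`. -/
theorem fb {k m : ℕ} (hk : 6 ≤ k) (w : ℝ × (Fin m → ℝ) → ℝ) (hw : Measurable w)
    (hadm : Pool.H632.LTD.Adm (k + m) (cyl k m w)) :
    Pool.Agent.U280.SM.FB (cyl k m w) (Pool.H632.LTD.Lcl 1 (k + m)) := by
  refine Pool.Agent.U280.SM.FB_of hadm fun N u g hs ho => ?_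
  have h1 := Pool.Agent.U281.CP.top_pot (m := m) hk u g hs ho (V := fun p => max (-w p) 0)
    (hw.neg.max measurable_const) (fun p => le_max_right _ _) hadm.neg
  rw [Ly_eq (by omega)] at h1
  exact h1

/-- **Lieb-Thirring inequalities with the semiclassical constant for all moments of order `s ≥ 1`
and all potentials `v (|x|, y)`, `|x|` the norm of at least six coordinates.** -/
theorem result (k m : ℕ) (hk : 6 ≤ k) (s : ℝ) (hs : 1 ≤ s) (v : ℝ × (Fin m → ℝ) → ℝ)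
    (hv : Measurable v)
    (hV : MemLp (cyl k m v) (ENNReal.ofReal (s + ((k + m : ℕ) : ℝ) / 2))) (N : ℕ) :
    ∑ n ∈ Finset.range N, (max (-minMax (cyl k m v) n) 0) ^ s ≤
      Lcl s (k + m) * ∫ z, (max (-cyl k m v z) 0) ^ (s + ((k + m : ℕ) : ℝ) / 2) := by
  have hS : ∀ {d : ℕ} {u : (Fin d → ℝ) → ℂ} {g : Fin d → (Fin d → ℝ) → ℂ},
      IsSobolev u g ↔ LTd.WGradC u g := fun {d u g} =>
    ⟨fun h => ⟨h.1, h.2, h.3⟩, fun h => ⟨h.1, h.2, h.3⟩⟩
  have hM : ∀ {d : ℕ} (V : (Fin d → ℝ) → ℝ) (n : ℕ),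
      minMax V n = Pool.H632.LTD.minMax V n := by
    intro d V n
    rw [← Pool.H632.LTD.mm_eq]
    unfold minMax Pool.H632.LTD.mm Trial
    simp only [hS, and_assoc]
  simp only [hM]
  have hd : 1 ≤ k + m := by omega
  refine Pool.Agent.U280.SM.moment_of_FB hd hs _ hV (fun h1 => ?_) (fun τ hτ => ?_) N
  · subst h1
    exact fb hk v hv (Pool.H632.LTD.adm_one hd hV)
  · have e : Pool.H632.LTD.sh (cyl k m v) τ = cyl k m (fun p => -(max (-v p - τ) 0)) := rfl
    rw [e]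
    refine fb hk _ ((hv.neg.sub_const τ).max measurable_const).neg ?_
    rw [← e]
    exact Pool.H632.LTD.sh_adm hd hs hV hτ

end Pool.Agent.Results.MP_4c716f_mp.CylindricalPotentials
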