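import Pool.Agent.Results.MP_cfe56d_mp.RealParts
import Pool.Agent.U280.SM.B

/-!
# Lieb-Thirring constants for classes of functions with small overlap with their conjugates

Let `P` be a linear class of functions on `ℝ^d` such that `|∫ f²| ≤ s` for all normalized `f ∈ L²` in the
class, and let `E_n` be the min-max values of `∫ |∇u|² + ∫ V |u|²` on the functions of the class in `H¹`.
For all `γ ≥ 1` and all real `V ∈ L^(γ + d/2)`

  `∑ (E_n)_-^γ ≤ (1 + s) / √3 · L^cl_{γ,d} ∫ V_-^(γ + d/2)`,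

so the semiclassical constant is enough if `s ≤ √3 - 1`. For `s = 1` (no condition) this is the known
constant `2 / √3`, for `s = 0` it is `1 / √3`.

Proof: the kinetic inequality of `MP_cfe56d_mp.RealParts` for the systems of the class, and the duality
and the argument of Aizenman and Lieb in `Pool.Agent.U280.SM`.
-/

set_option autoImplicit false

open MeasureTheory Real

namespace Pool.Agent.Results.MP_4c716f_mp.OverlapClasses

/-- The class `P` of functions on `ℝ^d` depends only on the functions almost everywhere, is closed under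
linear combinations, and `|∫ f²| ≤ s` for every `f ∈ L²` in the class with `∫ |f|² = 1`. -/
structure Class {d : ℕ} (P : ((Fin d → ℝ) → ℂ) → Prop) (s : ℝ) : Prop where
  congr : ∀ u v : (Fin d → ℝ) → ℂ, u =ᵐ[volume] v → P u → P v
  sum : ∀ (N : ℕ) (u : Fin N → (Fin d → ℝ) → ℂ) (c : Fin N → ℂ), (∀ i, P (u i)) →
    P (fun x => ∑ i, c i * u i x)
  overlap : ∀ f : (Fin d → ℝ) → ℂ, P f → MemLp f 2 volume → ∫ x, ‖f x‖ ^ 2 = 1 →
    ‖∫ x, f x ^ 2‖ ≤ s

/-- `u` belongs to the Sobolev space `H¹(ℝ^d; ℂ)` and has the weak partial derivatives `g k`. -/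
structure IsSobolev {d : ℕ} (u : (Fin d → ℝ) → ℂ) (g : Fin d → (Fin d → ℝ) → ℂ) : Prop where
  memLp : MemLp u 2 volume
  memLp_deriv : ∀ k, MemLp (g k) 2 volume
  weak : ∀ k (φ : (Fin d → ℝ) → ℝ), ContDiff ℝ (⊤ : ℕ∞) φ → HasCompactSupport φ →
    ∫ x, u x * (fderiv ℝ φ x (Pi.single k 1) : ℂ) = - ∫ x, g k x * (φ x : ℂ)

/-- `u 0, …, u n` are functions in `H¹(ℝ^d; ℂ)` with weak gradients `g 0, …, g n`, orthonormal
in `L²(ℝ^d; ℂ)`, and they lie in the class `P`. -/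
def Trial {d n : ℕ} (P : ((Fin d → ℝ) → ℂ) → Prop) (u : Fin (n + 1) → (Fin d → ℝ) → ℂ)
    (g : Fin (n + 1) → Fin d → (Fin d → ℝ) → ℂ) : Prop :=
  (∀ i, IsSobolev (u i) (g i)) ∧
    (∀ i j, ∫ x, (starRingEnd ℂ) (u i x) * u j x = if i = j then 1 else 0) ∧
    ∀ i, P (u i)

/-- The `(n + 1)`-th min-max value of `-Δ + V` on the class `P`: the infimum of the real numbers
`lam` such that on some `(n + 1)`-dimensional space of functions in `H¹` of the class, given by an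
orthonormal basis `u 0, …, u n`, the form is at most `lam` times the square of the norm, that is,
`∫ |∇v|² + ∫ V |v|² ≤ lam ∑ |c_i|²` for all `v = ∑ c_i u_i`. (It is `0` if there is no such space.) -/
noncomputable def minMax {d : ℕ} (P : ((Fin d → ℝ) → ℂ) → Prop) (V : (Fin d → ℝ) → ℝ)
    (n : ℕ) : ℝ :=
  sInf {lam : ℝ | ∃ (u : Fin (n + 1) → (Fin d → ℝ) → ℂ)
    (g : Fin (n + 1) → Fin d → (Fin d → ℝ) → ℂ), Trial P u g ∧
    ∀ c : Fin (n + 1) → ℂ, (∫ x, ∑ k, ‖∑ i, c i * g i k x‖ ^ 2) +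
      ∫ x, V x * ‖∑ i, c i * u i x‖ ^ 2 ≤ lam * ∑ i, ‖c i‖ ^ 2}

/-- The semiclassical constant `L^cl_{γ,d}`. -/
noncomputable def Lcl (γ : ℝ) (d : ℕ) : ℝ :=
  Gamma (γ + 1) / ((4 * π) ^ ((d:ℝ) / 2) * Gamma (γ + 1 + d / 2))

/-- The constant `L` is valid in the Lieb-Thirring inequality for the moments of order `γ` of the
negative min-max values of `-Δ + V` on the class `P`. -/
def Valid {d : ℕ} (P : ((Fin d → ℝ) → ℂ) → Prop) (γ L : ℝ) : Prop :=
  ∀ V : (Fin d → ℝ) → ℝ, MemLp V (ENNReal.ofReal (γ + (d:ℝ) / 2)) → ∀ N : ℕ,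
    ∑ n ∈ Finset.range N, (max (-minMax P V n) 0) ^ γ ≤
      L * ∫ x, (max (-V x) 0) ^ (γ + (d:ℝ) / 2)

open LTd Pool.H632.LTD in
theorem overlap_of {d N : ℕ} {P : ((Fin d → ℝ) → ℂ) → Prop} {s : ℝ} (h : Class P s)
    {u : Fin N → (Fin d → ℝ) → ℂ} (hu : ∀ n, MemLp (u n) 2 volume)
    (ho : ∀ n m, ∫ x, (starRingEnd ℂ) (u n x) * u m x = if n = m then 1 else 0)
    (hP : ∀ n, P (u n)) : Pool.Agent.Results.MP_cfe56d_mp.RealParts.Overlap u s := by
  intro a ha
  let e : Fin N → Lp ℂ 2 (volume : Measure (Fin d → ℝ)) := fun i => (hu i).toLp (u i)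
  have hea : ∀ i, (e i : (Fin d → ℝ) → ℂ) =ᵐ[volume] u i := fun i => (hu i).coeFn_toLp
  have heo : Orthonormal ℂ e := by
    rw [orthonormal_iff_ite]
    intro i j
    rw [lp_inner, ← ho i j]
    refine integral_congr_ae ?_
    filter_upwards [hea i, hea j] with x h1 h2
    rw [h1, h2]
  have hae : (fun x => ∑ i, a i * u i x) =ᵐ[volume]
      ((∑ i, a i • e i : Lp ℂ 2 _) : (Fin d → ℝ) → ℂ) := by
    have h2 : ∀ᵐ x, ∀ i, (e i : (Fin d → ℝ) → ℂ) x = u i x := ae_all_iff.2 hea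
    filter_upwards [coeFn_sum a e Finset.univ, h2] with x h3 h4
    rw [h3]
    exact Finset.sum_congr rfl fun i _ => by rw [h4 i]
  refine h.overlap _ (h.sum N u a hP) ((Lp.memLp (∑ i, a i • e i)).ae_eq hae.symm) ?_
  have h1 : ∫ x, ‖∑ i, a i * u i x‖ ^ 2 =
      ∫ x, ‖((∑ i, a i • e i : Lp ℂ 2 _) : (Fin d → ℝ) → ℂ) x‖ ^ 2 := by
    refine integral_congr_ae ?_
    filter_upwards [hae] with x hx
    rw [← hx]
  rw [h1, lp_norm_sq, norm_sum_sq heo, ha]

/-- **Lieb-Thirring inequalities for classes with small overlap with the complex conjugates.** -/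
theorem result (d : ℕ) (hd : 1 ≤ d) (P : ((Fin d → ℝ) → ℂ) → Prop) (s γ : ℝ) (hs : 0 ≤ s)
    (h : Class P s) (hγ : 1 ≤ γ) :
    Valid P γ ((1 + s) / √3 * Lcl γ d) ∧ (s ≤ √3 - 1 → Valid P γ (Lcl γ d)) := by
  have hS : ∀ {u : (Fin d → ℝ) → ℂ} {g : Fin d → (Fin d → ℝ) → ℂ},
      IsSobolev u g ↔ LTd.WGradC u g := fun {u g} =>
    ⟨fun h => ⟨h.1, h.2, h.3⟩, fun h => ⟨h.1, h.2, h.3⟩⟩
  have hM : ∀ (V : (Fin d → ℝ) → ℝ) (n : ℕ),
      minMax P V n = Pool.Agent.U280.SM.mmP P V n := by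
    intro V n
    rw [← Pool.Agent.U280.SM.mmF_eq P h.congr h.sum V n]
    unfold minMax Pool.Agent.U280.SM.mmF Trial
    simp only [hS, and_assoc]
  have hC : (0:ℝ) < 3 / (1 + s) ^ 2 := by positivity
  have hkin : Pool.Agent.U280.SM.KinP P ((3 / (1 + s) ^ 2) ^ (1 / (d:ℝ)) * LTd.Kcl d) := by
    intro N u g hu ho hP
    have hsys : Pool.Agent.Results.MP_cfe56d_mp.RealParts.System u g :=
      ⟨fun n => ⟨(hu n).1, (hu n).2, (hu n).3⟩, ho⟩
    exact ((Pool.Agent.Results.MP_cfe56d_mp.RealParts.result d hd).1 N u g hsys).2.2.2.1 s hs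
      (overlap_of h (fun n => (hu n).f2) ho hP)
  have e : ((3:ℝ) / (1 + s) ^ 2) ^ (-(1 / 2) : ℝ) = (1 + s) / √3 := by
    rw [Real.rpow_neg hC.le, ← Real.sqrt_eq_rpow, Real.sqrt_div (by norm_num),
      Real.sqrt_sq (by positivity), inv_div]
  have h1 : Valid P γ ((1 + s) / √3 * Lcl γ d) := by
    intro V hV N
    simp only [hM]
    have h2 := Pool.Agent.U280.SM.mmP_moment hd P hC hkin hγ V hV N
    rw [e] at h2
    exact h2
  refine ⟨h1, fun hs1 V hV N => (h1 V hV N).trans (mul_le_mul_of_nonneg_right ?_ ?_)⟩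
  · have h3 : (0:ℝ) < √3 := by positivity
    have hL : 0 ≤ Lcl γ d := by
      have g1 : 0 < Gamma (γ + 1) := Gamma_pos_of_pos (by linarith)
      have g2 : 0 < Gamma (γ + 1 + (d:ℝ) / 2) := Gamma_pos_of_pos (by positivity)
      unfold Lcl
      positivity
    have h4 : (1 + s) / √3 ≤ 1 := by
      rw [div_le_one h3]
      linarith
    nlinarith
  · exact integral_nonneg fun x => Real.rpow_nonneg (le_max_right _ _) _

end Pool.Agent.Results.MP_4c716f_mp.OverlapClasses
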