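import Pool.Agent.U280.SM.B
import Pool.Agent.U280.SM.Bal

/-!
# Sharp Lieb-Thirring inequalities in symmetry sectors

Let `γ` be a measure preserving map of `ℝ^d = ℝ^k × ℝ^m` which leaves the last `m` coordinates fixed,
`|ζ| = 1`, `ζ ≠ 1`, and let `E_1 ≤ E_2 ≤ …` be the min-max values of the form
`∫ |∇u|² + ∫ V |u|²` on the functions `u ∈ H¹(ℝ^d; ℂ)` with `u ∘ γ = ζ u` (if `V ∘ γ = V`, these are the
eigenvalues of `-Δ + V` with eigenfunctions in this sector, for example the eigenvalues with odd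
eigenfunctions if `V` is even). For all `s ≥ 1` and all real `V ∈ L^(s + d/2)`

  `∑ (E_n)_-^s ≤ C^(-1/2) L^cl_{s,d} ∫ V_-^(s + d/2)`

with `C = C_k` (`C_k > 1` for `k ≤ 6`) for all `ζ`, and with `C = 3` if `ζ ≠ -1`.

Proof: the kinetic inequality of `Pool.Agent.U280.SM.Bal` for the systems of the sector, Young's
inequality and orthonormal families of almost minimizing functions (Lieb and Thirring) for `s = 1`,
and the argument of Aizenman and Lieb for `s > 1`.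
-/

open MeasureTheory Set Real

set_option autoImplicit false

namespace Pool.Agent.Results.MP_4c716f_mp.SymmetrySectors

/-- The partial derivative `∂_k φ` of a function on `ℝ^d`. -/
noncomputable def pder {d : ℕ} (k : Fin d) (φ : (Fin d → ℝ) → ℝ) (x : Fin d → ℝ) : ℝ :=
  fderiv ℝ φ x (Pi.single k 1)

/-- `u` belongs to the Sobolev space `H¹(ℝ^d; ℂ)` and has the weak partial derivatives `g k`:
`u` and all `g k` are in `L²(ℝ^d)`, and `∫ u ∂_k φ = - ∫ g_k φ` for every real test function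
`φ ∈ C_c^∞(ℝ^d)`. -/
structure IsSobolev {d : ℕ} (u : (Fin d → ℝ) → ℂ) (g : Fin d → (Fin d → ℝ) → ℂ) : Prop where
  memLp : MemLp u 2 volume
  memLp_deriv : ∀ k, MemLp (g k) 2 volume
  weak : ∀ k (φ : (Fin d → ℝ) → ℝ), ContDiff ℝ (⊤ : ℕ∞) φ → HasCompactSupport φ →
    ∫ x, u x * (pder k φ x : ℂ) = - ∫ x, g k x * (φ x : ℂ)

/-- `u` lies in the sector of `(γ, ζ)`: `u ∘ γ = ζ u` almost everywhere. -/
def InSector {d : ℕ} (γ : (Fin d → ℝ) → (Fin d → ℝ)) (ζ : ℂ) (u : (Fin d → ℝ) → ℂ) : Prop :=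
  ∀ᵐ x, u (γ x) = ζ * u x

/-- `u 0, …, u n` are functions in `H¹(ℝ^d; ℂ)` with weak gradients `g 0, …, g n`, orthonormal
in `L²(ℝ^d; ℂ)`, and they lie in the sector of `(γ, ζ)`. -/
def Trial {d n : ℕ} (γ : (Fin d → ℝ) → (Fin d → ℝ)) (ζ : ℂ) (u : Fin (n + 1) → (Fin d → ℝ) → ℂ)
    (g : Fin (n + 1) → Fin d → (Fin d → ℝ) → ℂ) : Prop :=
  (∀ i, IsSobolev (u i) (g i)) ∧
    (∀ i j, ∫ x, (starRingEnd ℂ) (u i x) * u j x = if i = j then 1 else 0) ∧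
    ∀ i, InSector γ ζ (u i)

/-- The `(n + 1)`-th min-max value of `-Δ + V` on the sector of `(γ, ζ)`: the infimum of the real
numbers `lam` such that on some `(n + 1)`-dimensional space of functions in `H¹` of the sector, given
by an orthonormal basis `u 0, …, u n`, the form is at most `lam` times the square of the norm, that is,
`∫ |∇v|² + ∫ V |v|² ≤ lam ∑ |c_i|²` for all `v = ∑ c_i u_i`. (It is `0` if there is no such space.) -/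
noncomputable def minMax {d : ℕ} (γ : (Fin d → ℝ) → (Fin d → ℝ)) (ζ : ℂ) (V : (Fin d → ℝ) → ℝ)
    (n : ℕ) : ℝ :=
  sInf {lam : ℝ | ∃ (u : Fin (n + 1) → (Fin d → ℝ) → ℂ)
    (g : Fin (n + 1) → Fin d → (Fin d → ℝ) → ℂ), Trial γ ζ u g ∧
    ∀ c : Fin (n + 1) → ℂ, (∫ x, ∑ k, ‖∑ i, c i * g i k x‖ ^ 2) +
      ∫ x, V x * ‖∑ i, c i * u i x‖ ^ 2 ≤ lam * ∑ i, ‖c i‖ ^ 2}

/-- The semiclassical constant `L^cl_{s,d}`. -/
noncomputable def Lcl (s : ℝ) (d : ℕ) : ℝ :=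
  Gamma (s + 1) / ((4 * π) ^ ((d:ℝ) / 2) * Gamma (s + 1 + d / 2))

/-- The constant `L` is valid in the Lieb-Thirring inequality for the moments of order `s` of the
negative min-max values of `-Δ + V` on the sector of `(γ, ζ)`. -/
def Valid {d : ℕ} (γ : (Fin d → ℝ) → (Fin d → ℝ)) (ζ : ℂ) (s L : ℝ) : Prop :=
  ∀ V : (Fin d → ℝ) → ℝ, MemLp V (ENNReal.ofReal (s + (d:ℝ) / 2)) → ∀ N : ℕ,
    ∑ n ∈ Finset.range N, (max (-minMax γ ζ V n) 0) ^ s ≤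
      L * ∫ x, (max (-V x) 0) ^ (s + (d:ℝ) / 2)

/-- `γ` is a measure preserving map which leaves the last `m` coordinates fixed. -/
structure Moves (k m : ℕ) (γ : (Fin (k + m) → ℝ) → (Fin (k + m) → ℝ)) : Prop where
  measurePreserving : MeasurePreserving γ
  fixes : ∀ z j, γ z (Fin.natAdd k j) = z (Fin.natAdd k j)

/-- The number `(160 k / (33 π (k + 2)))^k (8 ω_k / (k + 2)²)²`, `ω_k` the volume of the unit ball of
`ℝ^k`. -/
noncomputable def C (k : ℕ) : ℝ :=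
  (160 / (33 * Real.pi) * ((k : ℝ) / ((k : ℝ) + 2))) ^ k *
    (8 * (volume (Metric.ball (0 : EuclideanSpace ℝ (Fin k)) 1)).toReal / ((k : ℝ) + 2) ^ 2) ^ 2

/-- **Lieb-Thirring inequalities with the semiclassical constant in symmetry sectors.** -/
theorem result :
    (∀ (k m : ℕ) (γ : (Fin (k + m) → ℝ) → (Fin (k + m) → ℝ)) (ζ : ℂ) (s : ℝ), 1 ≤ k → 1 ≤ s →
      Moves k m γ → ‖ζ‖ = 1 → ζ ≠ 1 → Valid γ ζ s (C k ^ (-(1 / 2) : ℝ) * Lcl s (k + m))) ∧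
    (1.62 ≤ C 1 ∧ 1.46 ≤ C 2 ∧ 1.4 ≤ C 3 ∧ 1.34 ≤ C 4 ∧ 1.15 ≤ C 5 ∧ 1.003 ≤ C 6) ∧
    (∀ (d : ℕ) (γ : (Fin d → ℝ) → (Fin d → ℝ)) (ζ : ℂ) (s : ℝ), 1 ≤ d → 1 ≤ s →
      MeasurePreserving γ → ‖ζ‖ = 1 → ζ ≠ 1 → ζ ≠ -1 → Valid γ ζ s (3 ^ (-(1 / 2) : ℝ) * Lcl s d)) ∧
    (∀ (k m : ℕ) (γ : (Fin (k + m) → ℝ) → (Fin (k + m) → ℝ)) (ζ : ℂ) (s : ℝ), 1 ≤ k → 1 ≤ s →
      Moves k m γ → ‖ζ‖ = 1 → ζ ≠ 1 → (k ≤ 6 ∨ ζ ≠ -1) → Valid γ ζ s (Lcl s (k + m))) := by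
  obtain ⟨b1, b2, b3, b4, b5⟩ := Pool.Agent.U280.SM.Bal.main
  have hS : ∀ {d : ℕ} {u : (Fin d → ℝ) → ℂ} {g : Fin d → (Fin d → ℝ) → ℂ},
      IsSobolev u g ↔ LTd.WGradC u g := fun {d u g} =>
    ⟨fun h => ⟨h.1, h.2, h.3⟩, fun h => ⟨h.1, h.2, h.3⟩⟩
  have hS' : ∀ {d : ℕ} {u : (Fin d → ℝ) → ℂ} {g : Fin d → (Fin d → ℝ) → ℂ},
      LTd.WGradC u g → Pool.Agent.U280.SM.Bal.IsSobolev u g :=
    fun h => ⟨h.1, h.2, h.3⟩
  have hM : ∀ {d : ℕ} (γ : (Fin d → ℝ) → (Fin d → ℝ)) (ζ : ℂ) (V : (Fin d → ℝ) → ℝ) (n : ℕ),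
      MeasurePreserving γ → minMax γ ζ V n = Pool.Agent.U280.SM.mmP (InSector γ ζ) V n := by
    intro d γ ζ V n hγ
    rw [← Pool.Agent.U280.SM.mmF_eq (InSector γ ζ)
      (fun u v huv hu => Pool.Agent.U280.SM.sector_congr hγ ζ u v huv hu)
      (fun N u c hu => Pool.Agent.U280.SM.sector_sum ζ N u c hu) V n]
    unfold minMax Pool.Agent.U280.SM.mmF Trial
    simp only [hS, and_assoc]
  -- the general scheme
  have key : ∀ (d : ℕ) (γ : (Fin d → ℝ) → (Fin d → ℝ)) (ζ : ℂ) (s c : ℝ), 1 ≤ d → 1 ≤ s →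
      MeasurePreserving γ → 0 < c →
      Pool.Agent.U280.SM.KinP (InSector γ ζ) (c ^ (1 / (d:ℝ)) * LTd.Kcl d) →
      Valid γ ζ s (c ^ (-(1 / 2) : ℝ) * Lcl s d) := by
    intro d γ ζ s c hd hs hγ hc hkin V hV N
    simp only [hM γ ζ V _ hγ]
    exact Pool.Agent.U280.SM.mmP_moment hd (InSector γ ζ) hc hkin hs V hV N
  have p1 : ∀ (k m : ℕ) (γ : (Fin (k + m) → ℝ) → (Fin (k + m) → ℝ)) (ζ : ℂ) (s : ℝ), 1 ≤ k →
      1 ≤ s → Moves k m γ → ‖ζ‖ = 1 → ζ ≠ 1 →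
      Valid γ ζ s (C k ^ (-(1 / 2) : ℝ) * Lcl s (k + m)) := by
    intro k m γ ζ s hk hs hγ hζ hζ1
    have hω : 0 < (volume (Metric.ball (0 : EuclideanSpace ℝ (Fin k)) 1)).toReal :=
      Pool.H632.LTD.volBall_pos k hk
    have hk0 : (0:ℝ) < k := by exact_mod_cast hk
    have hc : 0 < C k := by
      unfold C
      positivity
    refine key (k + m) γ ζ s (C k) (by omega) hs hγ.measurePreserving hc ?_
    intro N u g hu ho hP
    have hsys : Pool.Agent.U280.SM.Bal.System u g :=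
      ⟨fun n => hS' (hu n), ho⟩
    exact b1 k m N u g hk hsys (b3 k m N u γ ζ (fun n => (hu n).f2)
      ⟨hγ.measurePreserving, hγ.fixes, hζ, hζ1, hP⟩)
  have p3 : ∀ (d : ℕ) (γ : (Fin d → ℝ) → (Fin d → ℝ)) (ζ : ℂ) (s : ℝ), 1 ≤ d → 1 ≤ s →
      MeasurePreserving γ → ‖ζ‖ = 1 → ζ ≠ 1 → ζ ≠ -1 →
      Valid γ ζ s (3 ^ (-(1 / 2) : ℝ) * Lcl s d) := by
    intro d γ ζ s hd hs hγ hζ hζ1 hζ2
    refine key d γ ζ s 3 hd hs hγ (by norm_num) ?_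
    intro N u g hu ho hP
    have hζ3 : ζ ^ 2 ≠ 1 := by
      intro h
      have h' : (ζ - 1) * (ζ + 1) = 0 := by linear_combination h
      rcases mul_eq_zero.1 h' with h' | h'
      · exact hζ1 (sub_eq_zero.1 h')
      · exact hζ2 (eq_neg_of_add_eq_zero_left h')
    have h0 := (Pool.Agent.U450.OE.t_S d N u (fun n => (hu n).f2) γ hγ ζ hζ hζ1 hP).2 hζ3
    exact b4 d N u g hd ⟨fun n => hS' (hu n), ho⟩ h0
  refine ⟨p1, b2, p3, ?_⟩
  -- comparison with the semiclassical constant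
  have hLcl : ∀ (s : ℝ) (d : ℕ), 1 ≤ s → 0 ≤ Lcl s d := by
    intro s d hs
    have g1 : 0 < Gamma (s + 1) := Gamma_pos_of_pos (by linarith)
    have g2 : 0 < Gamma (s + 1 + (d:ℝ) / 2) := Gamma_pos_of_pos (by positivity)
    unfold Lcl
    positivity
  have hmono : ∀ {d : ℕ} (γ : (Fin d → ℝ) → (Fin d → ℝ)) (ζ : ℂ) (s c : ℝ), 1 ≤ s → 1 ≤ c →
      Valid γ ζ s (c ^ (-(1 / 2) : ℝ) * Lcl s d) → Valid γ ζ s (Lcl s d) := by
    intro d γ ζ s c hs hc h V hV N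
    refine (h V hV N).trans (mul_le_mul_of_nonneg_right ?_ ?_)
    · have h1 : c ^ (-(1 / 2) : ℝ) ≤ 1 := Real.rpow_le_one_of_one_le_of_nonpos hc (by norm_num)
      nlinarith [hLcl s d hs]
    · exact integral_nonneg fun x => Real.rpow_nonneg (le_max_right _ _) _
  intro k m γ ζ s hk hs hγ hζ hζ1 h6
  rcases h6 with h6 | h6
  · refine hmono γ ζ s (C k) hs ?_ (p1 k m γ ζ s hk hs hγ hζ hζ1)
    obtain ⟨c1, c2, c3, c4, c5, c6⟩ := b2
    have e : C k = Pool.Agent.U280.SM.Bal.C k := rfl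
    rw [e]
    interval_cases k <;> linarith
  · exact hmono γ ζ s 3 hs (by norm_num)
      (p3 (k + m) γ ζ s (by omega) hs hγ.measurePreserving hζ hζ1 h6)

end Pool.Agent.Results.MP_4c716f_mp.SymmetrySectors
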